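import Pool.Agent.H35.KB.Stmts
import Pool.Agent.H86.KN.Ext

/-!
# Project KB, module US0: short time expansion of the variance
-/

set_option autoImplicit false
set_option linter.unusedSectionVars false

open MeasureTheory Set Filter Topology
open scoped ContDiff

namespace Pool.Agent.H35.KB

open Pool.Agent.H84 Pool.Agent.H84.Sym Pool.Agent.H84.Sym.P2x Pool.Agent.H19.KL
open Pool.Agent.H73.KG Pool.Agent.H20.KH Pool.Agent.H52.KB
open Pool.Agent.H55.KB (WS spl FL gN GG ML)

theorem us0_thm (E : Type) [NormedAddCommGroup E] [InnerProductSpace ℝ E]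
    [FiniteDimensional ℝ E] [MeasurableSpace E] [BorelSpace E] : US0Stmt E := by
  intro t ht
  obtain ⟨B, hB, h⟩ := H86.KN.cv_step (E := E) (b0 E) ht
  refine ⟨B, hB, fun U hU ψ hψ s h0 _ => ?_⟩
  have h1 := h U hU ψ hψ s h0
  have e : hs (b0 E) U ψ 1 = ∑ k, (H86.KN.NN (b0 E) U ψ [k] 0 0) ^ 2 := by
    unfold hs
    rw [H55.KB.WS_succ]
    refine Finset.sum_congr rfl fun k _ => ?_
    rw [H55.KB.WS_zero]
    rfl
  rw [e]
  calc _ ≤ B * cv U ψ ψ * s ^ 2 := h1
    _ = _ := by ring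

end Pool.Agent.H35.KB
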